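import Mathlib

/-! Generic unit vectors with real coefficients: definitions. -/

namespace Pool.Agent.Lib.MPb0e841.GR

/-- The linear form `∑ x_i t_i`. -/
noncomputable def L {k : ℕ} (x : Fin k → ℝ) (t : Fin k → ℂ) : ℂ := ∑ i, (x i : ℂ) * t i

/-- The conjugate form `∑ x_i / t_i`. -/
noncomputable def Lc {k : ℕ} (x : Fin k → ℝ) (t : Fin k → ℂ) : ℂ := ∑ i, (x i : ℂ) / t i

/-- The circumradius identity (radius one) for the triangle with side vectors `x, y, z`. -/
def Cir {k : ℕ} (x y z : Fin k → ℝ) (t : Fin k → ℂ) : Prop :=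
  L x t * Lc x t * (L y t * Lc y t) * (L z t * Lc z t) = -(L x t * Lc y t - Lc x t * L y t) ^ 2

end Pool.Agent.Lib.MPb0e841.GR
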