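import Mathlib
import Pool.Agent.Lib.MP_b0e841_co.GR.Defs

/-! Part R1: the identity at an algebraically independent point is an identity of polynomials. -/

namespace Pool.Agent.Lib.MPb0e841.GR

open MvPolynomial Finset

/-- The polynomial `∑ x_i X_i`. -/
noncomputable def R1_PL {k : ℕ} {F : Subfield ℝ} (x : Fin k → F) : MvPolynomial (Fin k) F :=
  ∑ i, C (x i) * X i

/-- The polynomial `(∏ X_i) * ∑ x_i / X_i`. -/
noncomputable def R1_PLc {k : ℕ} {F : Subfield ℝ} (x : Fin k → F) : MvPolynomial (Fin k) F :=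
  ∑ i, C (x i) * ∏ j ∈ univ.erase i, X j

theorem R1_map {F : Subfield ℝ} (a : F) : algebraMap F ℂ a = ((a : ℝ) : ℂ) := rfl

theorem R1_aeval_PL {k : ℕ} {F : Subfield ℝ} (x : Fin k → F) (t : Fin k → ℂ) :
    aeval t (R1_PL x) = L (fun i => (x i : ℝ)) t := by
  simp only [R1_PL, L, map_sum, map_mul, aeval_X, aeval_C, R1_map]

theorem R1_aeval_PLc {k : ℕ} {F : Subfield ℝ} (x : Fin k → F) (t : Fin k → ℂ)
    (ht : ∀ i, t i ≠ 0) :
    aeval t (R1_PLc x) = (∏ i, t i) * Lc (fun i => (x i : ℝ)) t := by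
  simp only [R1_PLc, Lc, map_sum, map_mul, map_prod, aeval_X, aeval_C, Finset.mul_sum, R1_map]
  refine Finset.sum_congr rfl fun i _ => ?_
  rw [← Finset.mul_prod_erase univ t (Finset.mem_univ i)]
  have := ht i
  field_simp

theorem cir_of_indep {k : ℕ} (F : Subfield ℝ) (u : Fin k → ℂ) (hu : ∀ i, u i ≠ 0)
    (hind : AlgebraicIndependent F u)
    (x y z : Fin k → ℝ) (hx : ∀ i, x i ∈ F) (hy : ∀ i, y i ∈ F) (hz : ∀ i, z i ∈ F)
    (h : Cir x y z u) :
    ∀ t : Fin k → ℂ, (∀ i, t i ≠ 0) → Cir x y z t := by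
  intro t ht
  set x' : Fin k → F := fun i => ⟨x i, hx i⟩ with hx'
  set y' : Fin k → F := fun i => ⟨y i, hy i⟩ with hy'
  set z' : Fin k → F := fun i => ⟨z i, hz i⟩ with hz'
  set P : MvPolynomial (Fin k) F :=
    R1_PL x' * R1_PLc x' * (R1_PL y' * R1_PLc y') * (R1_PL z' * R1_PLc z')
      + (R1_PL x' * R1_PLc y' - R1_PLc x' * R1_PL y') ^ 2 * ∏ i, X i with hP
  have key : ∀ s : Fin k → ℂ, (∀ i, s i ≠ 0) → aeval s P = (∏ i, s i) ^ 3 *
      (L x s * Lc x s * (L y s * Lc y s) * (L z s * Lc z s)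
        + (L x s * Lc y s - Lc x s * L y s) ^ 2) := by
    intro s hs
    simp only [hP, map_add, map_mul, map_sub, map_pow, map_prod, aeval_X, R1_aeval_PL,
      R1_aeval_PLc _ s hs]
    simp only [hx', hy', hz']
    ring
  have hP0 : P = 0 := by
    apply hind.eq_zero_of_aeval_eq_zero
    rw [key u hu]
    unfold Cir at h
    rw [h]
    ring
  have h1 := key t ht
  rw [hP0, map_zero] at h1
  have hprod : (∏ i, t i) ^ 3 ≠ 0 := pow_ne_zero _ (Finset.prod_ne_zero_iff.mpr fun i _ => ht i)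
  have h2 := (mul_eq_zero.mp h1.symm).resolve_left hprod
  unfold Cir
  linear_combination h2

end Pool.Agent.Lib.MPb0e841.GR
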