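import Mathlib
import Pool.Agent.Lib.MP_b0e841_co.GR.Defs

namespace Pool.Agent.Lib.MPb0e841.GR

lemma g5L_update {k : ℕ} (x : Fin k → ℝ) (t : Fin k → ℂ) (i : Fin k) (s : ℂ) :
    L x (Function.update t i s) = x i * s + (L x t - x i * t i) := by
  unfold L
  rw [← Finset.add_sum_erase _ _ (Finset.mem_univ i), ← Finset.add_sum_erase _ (fun l => (x l : ℂ) * t l) (Finset.mem_univ i)]
  rw [Function.update_self]
  have : ∑ l ∈ Finset.univ.erase i, (x l : ℂ) * Function.update t i s l
      = ∑ l ∈ Finset.univ.erase i, (x l : ℂ) * t l := by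
    apply Finset.sum_congr rfl
    intro l hl
    rw [Function.update_of_ne (Finset.ne_of_mem_erase hl)]
  rw [this]
  ring

lemma g5Lc_update {k : ℕ} (x : Fin k → ℝ) (t : Fin k → ℂ) (i : Fin k) (s : ℂ) :
    Lc x (Function.update t i s) = x i / s + (Lc x t - x i / t i) := by
  unfold Lc
  rw [← Finset.add_sum_erase _ _ (Finset.mem_univ i), ← Finset.add_sum_erase _ (fun l => (x l : ℂ) / t l) (Finset.mem_univ i)]
  rw [Function.update_self]
  have : ∑ l ∈ Finset.univ.erase i, (x l : ℂ) / Function.update t i s l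
      = ∑ l ∈ Finset.univ.erase i, (x l : ℂ) / t l := by
    apply Finset.sum_congr rfl
    intro l hl
    rw [Function.update_of_ne (Finset.ne_of_mem_erase hl)]
  rw [this]
  ring

theorem support_single {k : ℕ} (x y z : Fin k → ℝ)
    (H : ∀ t : Fin k → ℂ, (∀ i, t i ≠ 0) → Cir x y z t) (i : Fin k)
    (hx : x i ≠ 0) (hy : y i ≠ 0) (hz : z i ≠ 0) :
    (∀ l, l ≠ i → x l = 0) ∨ (∀ l, l ≠ i → y l = 0) ∨ (∀ l, l ≠ i → z l = 0) := by
  have key : ∀ t : Fin k → ℂ, (∀ l, t l ≠ 0) →
      (Lc x t - x i / t i) * (Lc y t - y i / t i) * (Lc z t - z i / t i) = 0 := by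
    intro t ht
    have hs : ∀ s : ℂ, s ≠ 0 →
        (x i * s + (L x t - x i * t i)) * (x i + (Lc x t - x i / t i) * s)
          * ((y i * s + (L y t - y i * t i)) * (y i + (Lc y t - y i / t i) * s))
          * ((z i * s + (L z t - z i * t i)) * (z i + (Lc z t - z i / t i) * s))
          + s * ((x i * s + (L x t - x i * t i)) * (y i + (Lc y t - y i / t i) * s)
            - (x i + (Lc x t - x i / t i) * s) * (y i * s + (L y t - y i * t i))) ^ 2 = 0 := by
      intro s hs
      have h1 := H (Function.update t i s) (by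
        intro l
        by_cases hl : l = i
        · subst hl; rw [Function.update_self]; exact hs
        · rw [Function.update_of_ne hl]; exact ht l)
      unfold Cir at h1
      rw [g5L_update, g5L_update, g5L_update, g5Lc_update, g5Lc_update, g5Lc_update] at h1
      generalize L x t - x i * t i = a1 at *
      generalize L y t - y i * t i = b1 at *
      generalize L z t - z i * t i = c1 at *
      generalize Lc x t - x i / t i = a2 at *
      generalize Lc y t - y i / t i = b2 at *
      generalize Lc z t - z i / t i = c2 at *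
      field_simp at h1
      linear_combination h1
    have h1 := hs 1 (by norm_num)
    have h2 := hs 2 (by norm_num)
    have h3 := hs 3 (by norm_num)
    have h4 := hs 4 (by norm_num)
    have h5 := hs 5 (by norm_num)
    have h6 := hs 6 (by norm_num)
    have h7 := hs 7 (by norm_num)
    generalize L x t - x i * t i = a1 at *
    generalize L y t - y i * t i = b1 at *
    generalize L z t - z i * t i = c1 at *
    generalize Lc x t - x i / t i = a2 at *
    generalize Lc y t - y i / t i = b2 at *
    generalize Lc z t - z i / t i = c2 at *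
    have hp : (x i : ℂ) * y i * z i * (a2 * b2 * c2) = 0 := by
      linear_combination (1 / 720) * (h1 - 6 * h2 + 15 * h3 - 20 * h4 + 15 * h5 - 6 * h6 + h7)
    have hx' : (x i : ℂ) ≠ 0 := by exact_mod_cast hx
    have hy' : (y i : ℂ) ≠ 0 := by exact_mod_cast hy
    have hz' : (z i : ℂ) ≠ 0 := by exact_mod_cast hz
    exact (mul_eq_zero.mp hp).resolve_left (mul_ne_zero (mul_ne_zero hx' hy') hz')
  -- polynomials in one variable
  let A : (Fin k → ℝ) → Polynomial ℂ := fun x =>
    ∑ l : Fin k, if l = i then 0 else Polynomial.monomial (l : ℕ) ((x l : ℝ) : ℂ)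
  have hA : ∀ (x : Fin k → ℝ) (τ : ℂ), τ ≠ 0 →
      (A x).eval τ = Lc x (fun l => (τ ^ (l : ℕ))⁻¹) - x i / (τ ^ (i : ℕ))⁻¹ := by
    intro x τ hτ
    simp only [A, Lc]
    rw [Polynomial.eval_finsetSum, ← Finset.add_sum_erase Finset.univ _ (Finset.mem_univ i),
      ← Finset.add_sum_erase Finset.univ (fun l : Fin k => ((x l : ℝ) : ℂ) / (τ ^ (l : ℕ))⁻¹)
        (Finset.mem_univ i)]
    rw [if_pos rfl, Polynomial.eval_zero, zero_add, add_sub_cancel_left]
    apply Finset.sum_congr rfl
    intro l hl
    rw [if_neg (Finset.ne_of_mem_erase hl), Polynomial.eval_monomial, div_inv_eq_mul]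
  have hcoef : ∀ (x : Fin k → ℝ), A x = 0 → ∀ l, l ≠ i → x l = 0 := by
    intro x h0 l hl
    have h1 := congrArg (fun p => Polynomial.coeff p (l : ℕ)) h0
    simp only [A, Polynomial.finsetSum_coeff, Polynomial.coeff_zero] at h1
    rw [Finset.sum_eq_single l] at h1
    · rw [if_neg hl, Polynomial.coeff_monomial, if_pos rfl] at h1
      exact_mod_cast h1
    · intro m _ hm
      split_ifs with h
      · exact Polynomial.coeff_zero _
      · rw [Polynomial.coeff_monomial, if_neg]
        intro h2
        exact hm (Fin.ext h2)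
    · intro h; exact absurd (Finset.mem_univ l) h
  have hprod : A x * A y * A z * Polynomial.X = 0 := by
    apply Polynomial.funext
    intro τ
    rw [Polynomial.eval_zero]
    simp only [Polynomial.eval_mul, Polynomial.eval_X]
    by_cases hτ : τ = 0
    · rw [hτ, mul_zero]
    · rw [hA x τ hτ, hA y τ hτ, hA z τ hτ,
        key _ (fun l => inv_ne_zero (pow_ne_zero _ hτ)), zero_mul]
  have h3 := (mul_eq_zero.mp hprod).resolve_right Polynomial.X_ne_zero
  rcases mul_eq_zero.mp h3 with h3 | h3
  · rcases mul_eq_zero.mp h3 with h3 | h3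
    · exact Or.inl (hcoef x h3)
    · exact Or.inr (Or.inl (hcoef y h3))
  · exact Or.inr (Or.inr (hcoef z h3))

end Pool.Agent.Lib.MPb0e841.GR
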