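import Mathlib
import Pool.Agent.Lib.MP_b0e841_co.GR.Defs

/-! Generic unit vectors with real coefficients: in both cases of the classification, `x_i = ± 1`. -/

namespace Pool.Agent.Lib.MPb0e841.GR

private lemma cir_sign {k : ℕ} (x y z : Fin k → ℝ) (t : Fin k → ℂ) (ht : ∀ l, t l = 1 ∨ t l = -1)
    (h : Cir x y z t) : L x t = 0 ∨ L y t = 0 ∨ L z t = 0 := by
  have hinv : ∀ w : Fin k → ℝ, Lc w t = L w t := by
    intro w
    unfold L Lc
    refine Finset.sum_congr rfl fun l _ => ?_
    rcases ht l with h | h <;> rw [h] <;> ring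
  unfold Cir at h
  rw [hinv, hinv, hinv] at h
  have h1 : (L x t * L y t * L z t) ^ 2 = 0 := by linear_combination h
  have h2 := pow_eq_zero_iff (two_ne_zero) |>.mp h1
  rcases mul_eq_zero.mp h2 with h3 | h3
  · rcases mul_eq_zero.mp h3 with h4 | h4
    · exact Or.inl h4
    · exact Or.inr (Or.inl h4)
  · exact Or.inr (Or.inr h3)

private lemma L_two {k : ℕ} (w : Fin k → ℝ) (t : Fin k → ℂ) (i j : Fin k) (hij : i ≠ j)
    (ε δ : ℝ) (hi : t i = (ε : ℂ)) (hj : t j = (δ : ℂ)) (hw : ∀ l, l ≠ i → l ≠ j → w l = 0) :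
    L w t = ((w i * ε + w j * δ : ℝ) : ℂ) := by
  unfold L
  rw [Fintype.sum_eq_add i j hij, hi, hj]
  · push_cast; ring
  · rintro l ⟨h1, h2⟩
    rw [hw l h1 h2]; simp

theorem sq_one_first {k : ℕ} (x y z : Fin k → ℝ) (hz : ∀ l, x l + y l + z l = 0)
    (H : ∀ t : Fin k → ℂ, (∀ i, t i ≠ 0) → Cir x y z t) (i j : Fin k) (hij : j ≠ i)
    (hzi : z i = 0) (hxi : x i ≠ 0) (hxy : x j * y j = 1)
    (h0 : ∀ l, l ≠ i → l ≠ j → x l = 0 ∧ y l = 0 ∧ z l = 0) :
    (x i = 1 ∨ x i = -1) ∧ (x j = 1 ∨ x j = -1) ∧ y j = x j := by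
  have hyi : y i = - x i := by linarith [hz i]
  have hzj : z j = - (x j + y j) := by linarith [hz j]
  have hsum : x j + y j ≠ 0 := by
    intro h
    have h1 : y j = - x j := by linarith
    rw [h1] at hxy
    nlinarith [sq_nonneg (x j)]
  have main : ∀ ε : ℝ, (ε = 1 ∨ ε = -1) → x i * ε + x j = 0 ∨ - x i * ε + y j = 0 := by
    intro ε hε
    set t : Fin k → ℂ := Function.update (fun _ => (1 : ℂ)) i (ε : ℂ) with ht
    have hti : t i = (ε : ℂ) := by rw [ht, Function.update_self]
    have htl : ∀ l, l ≠ i → t l = 1 := by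
      intro l hl
      rw [ht, Function.update_of_ne hl]
    have htj : t j = ((1 : ℝ) : ℂ) := by rw [htl j hij]; simp
    have hsign : ∀ l, t l = 1 ∨ t l = -1 := by
      intro l
      by_cases hl : l = i
      · rw [hl, hti]
        rcases hε with h | h <;> rw [h] <;> simp
      · exact Or.inl (htl l hl)
    have h := cir_sign x y z t hsign (H t (fun l => by
      rcases hsign l with h | h <;> rw [h] <;> simp))
    rw [L_two x t i j hij.symm ε 1 hti htj (fun l h1 h2 => (h0 l h1 h2).1),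
      L_two y t i j hij.symm ε 1 hti htj (fun l h1 h2 => (h0 l h1 h2).2.1),
      L_two z t i j hij.symm ε 1 hti htj (fun l h1 h2 => (h0 l h1 h2).2.2)] at h
    simp only [Complex.ofReal_eq_zero] at h
    rw [hyi, hzi, hzj] at h
    rcases h with h | h | h
    · exact Or.inl (by linarith)
    · exact Or.inr (by linarith)
    · exact absurd (by linarith) hsum
  have hb : x j = y j ∧ (x i = x j ∨ x i = - x j) := by
    rcases main 1 (Or.inl rfl) with h1 | h1 <;> rcases main (-1) (Or.inr rfl) with h2 | h2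
    · exact absurd (by linarith) hxi
    · exact ⟨by linarith, Or.inr (by linarith)⟩
    · exact ⟨by linarith, Or.inl (by linarith)⟩
    · exact absurd (by linarith) hxi
  have hsq : x j = 1 ∨ x j = -1 := by
    rw [← hb.1] at hxy
    exact mul_self_eq_one_iff.mp hxy
  refine ⟨?_, hsq, hb.1.symm⟩
  rcases hb.2 with h | h <;> rcases hsq with h' | h' <;> rw [h, h'] <;> norm_num

theorem sq_one_second {k : ℕ} (x y z : Fin k → ℝ) (hz : ∀ l, x l + y l + z l = 0)
    (H : ∀ t : Fin k → ℂ, (∀ i, t i ≠ 0) → Cir x y z t) (i j m : Fin k) (hij : j ≠ i)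
    (him : m ≠ i) (hjm : j ≠ m) (hzi : z i = 0) (hxi : x i ≠ 0) (hx : x j = 1 ∨ x j = -1)
    (hyj : y j = 0) (hxm : x m = 0) (hy : y m = 1 ∨ y m = -1)
    (h0 : ∀ l, l ≠ i → l ≠ j → l ≠ m → x l = 0 ∧ y l = 0 ∧ z l = 0) : x i = 1 ∨ x i = -1 := by
  have hyi : y i = - x i := by linarith [hz i]
  have hzj : z j = - x j := by linarith [hz j]
  have hzm : z m = - y m := by linarith [hz m]
  obtain ⟨ε, hε, hne⟩ : ∃ ε : ℝ, (ε = 1 ∨ ε = -1) ∧ x j + y m * ε ≠ 0 := by
    by_cases h : x j + y m = 0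
    · refine ⟨-1, Or.inr rfl, fun h' => ?_⟩
      rcases hx with hx | hx <;> rw [hx] at h h' <;> linarith
    · exact ⟨1, Or.inl rfl, fun h' => h (by linarith)⟩
  set t : Fin k → ℂ := Function.update (fun _ => (1 : ℂ)) m (ε : ℂ) with ht
  have htm : t m = (ε : ℂ) := by rw [ht, Function.update_self]
  have htl : ∀ l, l ≠ m → t l = 1 := by
    intro l hl
    rw [ht, Function.update_of_ne hl]
  have hti : t i = ((1 : ℝ) : ℂ) := by rw [htl i him.symm]; simp
  have htj : t j = ((1 : ℝ) : ℂ) := by rw [htl j hjm]; simp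
  have hsign : ∀ l, t l = 1 ∨ t l = -1 := by
    intro l
    by_cases hl : l = m
    · rw [hl, htm]
      rcases hε with h | h <;> rw [h] <;> simp
    · exact Or.inl (htl l hl)
  have h := cir_sign x y z t hsign (H t (fun l => by
    rcases hsign l with h | h <;> rw [h] <;> simp))
  rw [L_two x t i j hij.symm 1 1 hti htj (by
      intro l h1 h2
      by_cases hl : l = m
      · rw [hl, hxm]
      · exact (h0 l h1 h2 hl).1),
    L_two y t i m him.symm 1 ε hti htm (by
      intro l h1 h2
      by_cases hl : l = j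
      · rw [hl, hyj]
      · exact (h0 l h1 hl h2).2.1),
    L_two z t j m hjm 1 ε htj htm (by
      intro l h1 h2
      by_cases hl : l = i
      · rw [hl, hzi]
      · exact (h0 l hl h1 h2).2.2)] at h
  simp only [Complex.ofReal_eq_zero] at h
  rw [hyi, hzj, hzm] at h
  rcases h with h | h | h
  · rcases hx with hx | hx
    · exact Or.inr (by linarith)
    · exact Or.inl (by linarith)
  · rcases hy with hy | hy <;> rcases hε with hε | hε <;> rw [hy, hε] at h
    · exact Or.inl (by linarith)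
    · exact Or.inr (by linarith)
    · exact Or.inr (by linarith)
    · exact Or.inl (by linarith)
  · exact absurd (by linarith) hne

end Pool.Agent.Lib.MPb0e841.GR
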