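import Mathlib
import Pool.Agent.Lib.MP_b0e841_co.GR.R1
import Pool.Agent.Lib.MP_b0e841_co.GR.R2
import Pool.Agent.Lib.MP_b0e841_co.GR.R3
import Pool.Agent.Lib.MP_b0e841_co.GR.R5
import Pool.Agent.Lib.MP_b0e841_co.GR.R6

/-!
Assembly, real coefficients: the side vectors of a triangle of circumradius one have integer
entries.
-/

namespace Pool.Agent.Lib.MPb0e841.GR

lemma L_sum_zero {k : ℕ} {x y z : Fin k → ℝ} (hz : ∀ l, x l + y l + z l = 0) (t : Fin k → ℂ) :
    L z t = -L x t - L y t := by
  unfold L
  rw [← Finset.sum_neg_distrib, ← Finset.sum_sub_distrib]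
  apply Finset.sum_congr rfl
  intro i _
  have h1 : z i = -x i - y i := by have := hz i; linarith
  rw [h1]
  push_cast
  ring

lemma Lc_sum_zero {k : ℕ} {x y z : Fin k → ℝ} (hz : ∀ l, x l + y l + z l = 0)
    (t : Fin k → ℂ) : Lc z t = -Lc x t - Lc y t := by
  unfold Lc
  rw [← Finset.sum_neg_distrib, ← Finset.sum_sub_distrib]
  apply Finset.sum_congr rfl
  intro i _
  have h1 : z i = -x i - y i := by have := hz i; linarith
  rw [h1]
  push_cast
  ring

lemma Cir.rot {k : ℕ} {x y z : Fin k → ℝ} (hz : ∀ l, x l + y l + z l = 0) {t : Fin k → ℂ}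
    (h : Cir x y z t) : Cir y z x t := by
  unfold Cir at h ⊢
  rw [L_sum_zero hz t, Lc_sum_zero hz t] at h ⊢
  linear_combination h

/-- Integer entries. -/
def Ent {k : ℕ} (x : Fin k → ℝ) : Prop := ∀ l, ∃ n : ℤ, x l = n

lemma int_of {a : ℝ} (h : a = 0 ∨ a = 1 ∨ a = -1) : ∃ n : ℤ, a = n := by
  rcases h with h | h | h
  · exact ⟨0, by rw [h]; simp⟩
  · exact ⟨1, by rw [h]; simp⟩
  · exact ⟨-1, by rw [h]; simp⟩

lemma ent_third {k : ℕ} {x y z : Fin k → ℝ} (hz : ∀ l, x l + y l + z l = 0) (hx : Ent x)
    (hy : Ent y) : Ent z := by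
  intro l
  obtain ⟨m, hm⟩ := hx l
  obtain ⟨n, hn⟩ := hy l
  refine ⟨-m - n, ?_⟩
  have := hz l
  rw [hm, hn] at this
  push_cast
  linarith

lemma first_pos {k : ℕ} (x y z : Fin k → ℝ) (hz : ∀ l, x l + y l + z l = 0)
    (H : ∀ t : Fin k → ℂ, (∀ i, t i ≠ 0) → Cir x y z t) (i : Fin k)
    (hzi : z i = 0) (hxi : x i ≠ 0) (hz0 : z ≠ 0) : Ent x ∧ Ent y := by
  have hyi : y i = -x i := by
    have := hz i
    rw [hzi] at this
    linarith
  have htop := top_coeff _ _ _ hz H i hzi hxi
  have neg1 : ∀ a : ℝ, (a = 1 ∨ a = -1) → (-a = 0 ∨ -a = 1 ∨ -a = -1) := by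
    intro a ha
    rcases ha with h | h
    · right; right; rw [h]
    · right; left; rw [h]; norm_num
  rcases classify _ _ _ hz i hzi hz0 htop with
    ⟨j, hji, hxyj, h0⟩ | ⟨j, m, hji, hmi, hjm, hxj, hyj, hxm, hym, h0⟩
  · obtain ⟨a1, a2, a3⟩ := sq_one_first _ _ _ hz H i j hji hzi hxi hxyj h0
    constructor
    · intro l
      by_cases hl : l = i
      · subst hl; exact int_of (Or.inr a1)
      · by_cases hl2 : l = j
        · subst hl2; exact int_of (Or.inr a2)
        · exact int_of (Or.inl (h0 l hl hl2).1)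
    · intro l
      by_cases hl : l = i
      · subst hl; rw [hyi]; exact int_of (neg1 _ a1)
      · by_cases hl2 : l = j
        · subst hl2; rw [a3]; exact int_of (Or.inr a2)
        · exact int_of (Or.inl (h0 l hl hl2).2.1)
  · have a1 := sq_one_second _ _ _ hz H i j m hji hmi hjm hzi hxi hxj hyj hxm hym h0
    constructor
    · intro l
      by_cases hl : l = i
      · subst hl; exact int_of (Or.inr a1)
      · by_cases hl2 : l = j
        · subst hl2; exact int_of (Or.inr hxj)
        · by_cases hl3 : l = m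
          · subst hl3; exact int_of (Or.inl hxm)
          · exact int_of (Or.inl (h0 l hl hl2 hl3).1)
    · intro l
      by_cases hl : l = i
      · subst hl; rw [hyi]; exact int_of (neg1 _ a1)
      · by_cases hl2 : l = j
        · subst hl2; exact int_of (Or.inl hyj)
        · by_cases hl3 : l = m
          · subst hl3; exact int_of (Or.inr hym)
          · exact int_of (Or.inl (h0 l hl hl2 hl3).2.1)

/-- All side vectors have integer entries. -/
lemma entries {k : ℕ} (x y z : Fin k → ℝ) (hz : ∀ l, x l + y l + z l = 0)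
    (H : ∀ t : Fin k → ℂ, (∀ i, t i ≠ 0) → Cir x y z t) (hx0 : x ≠ 0) (hy0 : y ≠ 0)
    (hz0 : z ≠ 0) {u : Fin k → ℂ} (hu : ∀ i, u i ≠ 0)
    (hD : L x u * Lc y u - Lc x u * L y u ≠ 0) : Ent x ∧ Ent y := by
  by_cases h : ∃ i, (x i ≠ 0 ∨ y i ≠ 0) ∧ (x i = 0 ∨ y i = 0 ∨ z i = 0)
  · obtain ⟨i, h1, h2⟩ := h
    have hs := hz i
    rcases h2 with h2 | h2 | h2
    · -- x i = 0
      have hy : y i ≠ 0 := by
        rcases h1 with h1 | h1
        · exact absurd h2 h1
        · exact h1
      have hz' : ∀ l, y l + z l + x l = 0 := by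
        intro l; have := hz l; linarith
      obtain ⟨b1, b2⟩ := first_pos y z x hz' (fun t ht => (H t ht).rot hz) i h2 hy hx0
      exact ⟨ent_third hz' b1 b2, b1⟩
    · -- y i = 0
      have hx : z i ≠ 0 := by
        rcases h1 with h1 | h1
        · intro h3
          apply h1
          rw [h2, h3] at hs
          linarith
        · exact absurd h2 h1
      have hz' : ∀ l, y l + z l + x l = 0 := by
        intro l; have := hz l; linarith
      have hz'' : ∀ l, z l + x l + y l = 0 := by
        intro l; have := hz l; linarith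
      obtain ⟨b1, b2⟩ := first_pos z x y hz''
        (fun t ht => ((H t ht).rot hz).rot hz') i h2 hx hy0
      exact ⟨b2, ent_third hz'' b1 b2⟩
    · -- z i = 0
      have hx : x i ≠ 0 := by
        rcases h1 with h1 | h1
        · exact h1
        · intro h3
          apply h1
          rw [h2, h3] at hs
          linarith
      exact first_pos x y z hz H i h2 hx hz0
  · exfalso
    push Not at h
    obtain ⟨i, hi⟩ := Function.ne_iff.mp hx0
    have hi' : x i ≠ 0 := hi
    obtain ⟨a1, a2, a3⟩ := h i (Or.inl hi')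
    have key : ∀ l, l ≠ i → x l = 0 ∧ y l = 0 := by
      intro l hl
      by_contra hcon
      have h4 : x l ≠ 0 ∨ y l ≠ 0 := by
        by_contra h5
        push Not at h5
        exact hcon h5
      obtain ⟨b1, b2, b3⟩ := h l h4
      rcases support_single _ _ _ H i a1 a2 a3 with s | s | s
      · exact b1 (s l hl)
      · exact b2 (s l hl)
      · exact b3 (s l hl)
    apply hD
    have e1 : L x u = (x i : ℂ) * u i := by
      unfold L
      rw [Finset.sum_eq_single i]
      · intro l _ hl
        rw [(key l hl).1]; simp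
      · intro hh; exact absurd (Finset.mem_univ i) hh
    have e2 : L y u = (y i : ℂ) * u i := by
      unfold L
      rw [Finset.sum_eq_single i]
      · intro l _ hl
        rw [(key l hl).2]; simp
      · intro hh; exact absurd (Finset.mem_univ i) hh
    have e3 : Lc x u = (x i : ℂ) / u i := by
      unfold Lc
      rw [Finset.sum_eq_single i]
      · intro l _ hl
        rw [(key l hl).1]; simp
      · intro hh; exact absurd (Finset.mem_univ i) hh
    have e4 : Lc y u = (y i : ℂ) / u i := by
      unfold Lc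
      rw [Finset.sum_eq_single i]
      · intro l _ hl
        rw [(key l hl).2]; simp
      · intro hh; exact absurd (Finset.mem_univ i) hh
    rw [e1, e2, e3, e4]
    have := hu i
    field_simp
    ring

end Pool.Agent.Lib.MPb0e841.GR
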